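import Pool.Agent.Lib.MP_a31e1e_gt.Interfaces

/-!
# FLOORINJ: the lifted floor is injective up to `(u,t) ~ (u+π,-t)`
-/

open scoped ContDiff Manifold Topology RealInnerProductSpace
open Set Metric

namespace Pool.Agent.Tight.H75

open Pool.Agent.Tight

/-- `e^{2iu}` -/
noncomputable def zz (u : ℝ) : ℂ := Complex.exp (2 * (u : ℂ) * Complex.I)

/-- `t e^{-iu}` -/
noncomputable def ta (u t : ℝ) : ℂ := (t : ℂ) * Complex.exp (-(u : ℂ) * Complex.I)

theorem norm_zz (u : ℝ) : ‖zz u‖ = 1 := by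
  unfold zz
  rw [show (2 * (u : ℂ) * Complex.I) = ((2 * u : ℝ) : ℂ) * Complex.I by push_cast; ring]
  exact Complex.norm_exp_ofReal_mul_I _

theorem norm_ta (u t : ℝ) : ‖ta u t‖ = |t| := by
  unfold ta
  rw [norm_mul, show (-(u : ℂ) * Complex.I) = ((-u : ℝ) : ℂ) * Complex.I by push_cast; ring,
    Complex.norm_exp_ofReal_mul_I]
  simp

theorem conj_ta (u t : ℝ) : (starRingEnd ℂ) (ta u t) = zz u * ta u t := by
  unfold ta zz
  rw [map_mul, Complex.conj_ofReal, ← Complex.exp_conj]
  rw [show (starRingEnd ℂ) (-(u : ℂ) * Complex.I) = (u : ℂ) * Complex.I by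
    simp]
  rw [mul_left_comm, ← Complex.exp_add]
  congr 2
  ring

theorem xi_eq (b : E2) : ((xiX b : ℝ) : ℂ) + (xiY b : ℝ) * Complex.I = zz (b 0) + ta (b 0) (b 1) := by
  unfold zz ta xiX xiY
  rw [show (2 * (b 0 : ℂ) * Complex.I) = ((2 * b 0 : ℝ) : ℂ) * Complex.I by push_cast; ring,
    show (-(b 0 : ℂ) * Complex.I) = ((- b 0 : ℝ) : ℂ) * Complex.I by push_cast; ring,
    Complex.exp_mul_I, Complex.exp_mul_I]
  rw [← Complex.ofReal_cos, ← Complex.ofReal_sin, ← Complex.ofReal_cos, ← Complex.ofReal_sin]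
  rw [Real.cos_neg, Real.sin_neg]
  push_cast
  ring

/-- the key cancellation: `z + a` determines `(z,a)` if `|a| > 2`. -/
theorem inj_key (z a z' a' : ℂ) (hz' : ‖z'‖ = 1) (ha : 2 < ‖a‖)
    (hc : (starRingEnd ℂ) a = z * a) (hc' : (starRingEnd ℂ) a' = z' * a')
    (h : z + a = z' + a') : a = a' := by
  have h1 : (a - a') * (z' - a) = (starRingEnd ℂ) (a - a') := by
    rw [map_sub, hc, hc']
    have : z = z' + a' - a := by rw [← h]; ring
    rw [this]
    ring
  have h2 : ‖a - a'‖ * ‖z' - a‖ = ‖a - a'‖ := by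
    rw [← norm_mul, h1]
    exact RCLike.norm_conj _
  have h3 : 1 < ‖z' - a‖ := by
    have := norm_sub_norm_le a z'
    rw [norm_sub_rev] at this
    linarith
  by_contra hne
  have h4 : 0 < ‖a - a'‖ := norm_pos_iff.mpr (sub_ne_zero.mpr hne)
  nlinarith

theorem zz_eq (u u' : ℝ) (h : zz u = zz u') : ∃ k : ℤ, u' = u + k * Real.pi := by
  unfold zz at h
  rw [Complex.exp_eq_exp_iff_exists_int] at h
  obtain ⟨n, hn⟩ := h
  refine ⟨-n, ?_⟩
  have h1 : (2 * (u : ℂ)) = 2 * u' + n * (2 * Real.pi) := by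
    have h2 := congrArg (fun z => z * (-Complex.I)) hn
    have h3 : (2 * (u : ℂ) * Complex.I) * (-Complex.I) = 2 * u := by
      linear_combination (-2 * (u : ℂ)) * Complex.I_sq
    have h4 : (2 * (u' : ℂ) * Complex.I + n * (2 * Real.pi * Complex.I)) * (-Complex.I)
        = 2 * u' + n * (2 * Real.pi) := by
      linear_combination (-2 * (u' : ℂ) - n * (2 * Real.pi)) * Complex.I_sq
    rw [h3, h4] at h2
    exact h2
  have h2 : 2 * u = 2 * u' + n * (2 * Real.pi) := by exact_mod_cast h1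
  push_cast
  linarith

theorem ta_shift (u t : ℝ) (k : ℤ) : ta (u + k * Real.pi) t = (-1) ^ k * ta u t := by
  unfold ta
  rw [show (-((u + k * Real.pi : ℝ) : ℂ) * Complex.I)
    = -(u : ℂ) * Complex.I + ((-k : ℤ) : ℂ) * (Real.pi * Complex.I) by push_cast; ring]
  rw [Complex.exp_add, Complex.exp_int_mul, Complex.exp_pi_mul_I]
  rw [zpow_neg]
  have : ((-1 : ℂ) ^ k)⁻¹ = (-1) ^ k := by
    rcases Int.even_or_odd k with hk | hk
    · rw [hk.neg_one_zpow]; simp
    · rw [hk.neg_one_zpow]; norm_num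
  rw [this]
  ring

theorem zz_shift (u : ℝ) (k : ℤ) : zz (u + k * Real.pi) = zz u := by
  unfold zz
  rw [Complex.exp_eq_exp_iff_exists_int]
  exact ⟨k, by push_cast; ring⟩

theorem ta_ne (u t t' : ℝ) (k : ℤ) (h : ta u t = (-1) ^ k * ta u t') : t' = (-1) ^ k * t := by
  unfold ta at h
  have he : Complex.exp (-(u : ℂ) * Complex.I) ≠ 0 := Complex.exp_ne_zero _
  have h1 : (t : ℂ) = (-1) ^ k * t' := by
    apply mul_right_cancel₀ he
    rw [h]; ring
  have h2 : t = (-1) ^ k * t' := by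
    have : ((t : ℝ) : ℂ) = (((-1 : ℝ) ^ k * t' : ℝ) : ℂ) := by
      rw [h1]; push_cast; rfl
    exact_mod_cast this
  rw [h2]
  rcases Int.even_or_odd k with hk | hk
  · rw [hk.neg_one_zpow]; simp
  · rw [hk.neg_one_zpow]; norm_num

theorem nn_floor (ρ l : ℝ) (b : E2) :
    nn (floorX ρ l b) = l ^ 2 * ‖zz (b 0) + ta (b 0) (b 1)‖ ^ 2 := by
  rw [← xi_eq, ← Complex.normSq_eq_norm_sq, Complex.normSq_apply]
  simp [nn, floorX]
  ring

theorem floorInj : FloorInjStatement := by
  intro ρ l hP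
  constructor
  · intro b b' h
    unfold floorP at h
    rw [Prod.mk.injEq] at h
    obtain ⟨hX, hL⟩ := h
    have hl := hP.hl
    have hx : xiX b = xiX b' := by
      have := congrArg (fun x : E3 => x 0) hX
      simp [floorX] at this
      rcases this with h | h
      · exact h
      · exact absurd h hl.ne'
    have hy : xiY b = xiY b' := by
      have := congrArg (fun x : E3 => x 1) hX
      simp [floorX] at this
      rcases this with h | h
      · exact h
      · exact absurd h hl.ne'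
    have hxi : zz (b 0) + ta (b 0) (b 1) = zz (b' 0) + ta (b' 0) (b' 1) := by
      rw [← xi_eq, ← xi_eq, hx, hy]
    have hz : zz (b 0) = zz (b' 0) := by
      by_cases hn : nn (floorX ρ l b) < ρ ^ 2 / 16
      · have hn' : nn (floorX ρ l b') < ρ ^ 2 / 16 := by rw [← hX]; exact hn
        unfold lab at hL
        rw [← hX] at hL
        have hpos : 0 < max (ρ ^ 2 / 16 - nn (floorX ρ l b)) 0 :=
          lt_max_of_lt_left (by linarith)
        have hne : ((max (ρ ^ 2 / 16 - nn (floorX ρ l b)) 0 : ℝ) : ℂ) ≠ 0 := by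
          exact_mod_cast hpos.ne'
        exact mul_left_cancel₀ hne hL
      · have hn : ρ ^ 2 / 16 ≤ nn (floorX ρ l b) := not_lt.mp hn
        rw [nn_floor] at hn
        have h25 : 25 ≤ ‖zz (b 0) + ta (b 0) (b 1)‖ := by
          by_contra hlt
          have hlt := not_le.mp hlt
          have h0 := norm_nonneg (zz (b 0) + ta (b 0) (b 1))
          have h1 : ‖zz (b 0) + ta (b 0) (b 1)‖ ^ 2 < 25 ^ 2 := by nlinarith
          have h2 : l ^ 2 * ‖zz (b 0) + ta (b 0) (b 1)‖ ^ 2 < l ^ 2 * 25 ^ 2 :=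
            mul_lt_mul_of_pos_left h1 (by positivity)
          have h3 : l ^ 2 ≤ (ρ / 100) ^ 2 := by
            have := hP.hl'
            have := hP.hρ
            nlinarith
          nlinarith
        have hta : 2 < ‖ta (b 0) (b 1)‖ := by
          have := norm_add_le (zz (b 0)) (ta (b 0) (b 1))
          rw [norm_zz] at this
          linarith
        have := inj_key _ _ _ _ (norm_zz (b' 0)) hta (conj_ta _ _) (conj_ta _ _) hxi
        rw [this] at hxi
        exact add_right_cancel hxi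
    obtain ⟨k, hk⟩ := zz_eq _ _ hz
    refine ⟨k, hk, ?_⟩
    rw [hz] at hxi
    have hta := add_left_cancel hxi
    rw [hk, ta_shift] at hta
    exact ta_ne _ _ _ _ hta
  · rintro b b' ⟨k, h0, h1⟩
    have hz : zz (b' 0) = zz (b 0) := by rw [h0, zz_shift]
    have hsq : ((-1 : ℝ) ^ k) * (-1) ^ k = 1 := by
      rcases Int.even_or_odd k with hk | hk
      · rw [hk.neg_one_zpow]; simp
      · rw [hk.neg_one_zpow]; norm_num
    have hc2 : Real.cos (2 * b' 0) = Real.cos (2 * b 0) := by
      rw [h0, show 2 * (b 0 + k * Real.pi) = 2 * b 0 + k * (2 * Real.pi) by ring,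
        Real.cos_add_int_mul_two_pi]
    have hs2 : Real.sin (2 * b' 0) = Real.sin (2 * b 0) := by
      rw [h0, show 2 * (b 0 + k * Real.pi) = 2 * b 0 + k * (2 * Real.pi) by ring,
        Real.sin_add_int_mul_two_pi]
    have hc1 : Real.cos (b' 0) = (-1) ^ k * Real.cos (b 0) := by
      rw [h0, Real.cos_add_int_mul_pi]
    have hs1 : Real.sin (b' 0) = (-1) ^ k * Real.sin (b 0) := by
      rw [h0, Real.sin_add_int_mul_pi]
    have hs3 : Real.sin (3 * b' 0) = (-1) ^ k * Real.sin (3 * b 0) := by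
      rw [h0, show 3 * (b 0 + k * Real.pi) = 3 * b 0 + k * Real.pi + k * (2 * Real.pi) by ring,
        Real.sin_add_int_mul_two_pi, Real.sin_add_int_mul_pi]
    have hx : xiX b' = xiX b := by
      unfold xiX
      rw [hc2, hc1, h1]
      linear_combination (b 1 * Real.cos (b 0)) * hsq
    have hy : xiY b' = xiY b := by
      unfold xiY
      rw [hs2, hs1, h1]
      linear_combination (-b 1 * Real.sin (b 0)) * hsq
    have hts : b' 1 * Real.sin (3 * b' 0) = b 1 * Real.sin (3 * b 0) := by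
      rw [hs3, h1]
      linear_combination (b 1 * Real.sin (3 * b 0)) * hsq
    have hX : floorX ρ l b' = floorX ρ l b := by
      unfold floorX floorH
      rw [hx, hy, hts]
    unfold floorP lab
    rw [hX]
    have : Complex.exp (2 * (b' 0 : ℂ) * Complex.I) = Complex.exp (2 * (b 0 : ℂ) * Complex.I) := hz
    rw [this]

end Pool.Agent.Tight.H75
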