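import Pool.Agent.Lib.MP_a31e1e_gt.Interfaces

/-!
# FLOORSTRONG: strength of the floor outside of the three flat points
-/

open scoped ContDiff Manifold Topology RealInnerProductSpace
open Set Metric

namespace Pool.Agent.Tight.H75

open Pool.Agent.Tight

/-! ## continuity of the curvature quantities -/

theorem cda_fderiv {E F : Type*} [NormedAddCommGroup E] [NormedSpace ℝ E] [NormedAddCommGroup F]
    [NormedSpace ℝ F] {X : E → F} {b : E} (h : ContDiffAt ℝ ∞ X b) :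
    ContDiffAt ℝ ∞ (fderiv ℝ X) b := h.fderiv_right (by simp)

theorem cont_fd {X : E2 → E3} {b : E2} (h : ContDiffAt ℝ ∞ X b) (i : Fin 2) :
    ContinuousAt (fun a => fderiv ℝ X a (e2 i)) b :=
  (cda_fderiv h).continuousAt.clm_apply continuousAt_const

theorem cont_D2 {X : E2 → E3} {b : E2} (h : ContDiffAt ℝ ∞ X b) (i j : Fin 2) :
    ContinuousAt (fun a => D2 X a (e2 i) (e2 j)) b := by
  unfold D2
  exact ((cda_fderiv (cda_fderiv h)).continuousAt.clm_apply continuousAt_const).clm_apply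
    continuousAt_const

theorem cont_coord {g : E2 → E3} {b : E2} (h : ContinuousAt g b) (k : Fin 3) :
    ContinuousAt (fun a => g a k) b := by
  have : Continuous (fun x : E3 => x k) := by fun_prop
  exact this.continuousAt.comp h

theorem cont_sff {X : E2 → E3} {b : E2} (h : ContDiffAt ℝ ∞ X b) (i j : Fin 2) :
    ContinuousAt (fun a => sff X a i j) b := by
  have h0 := fun k => cont_coord (cont_fd h 0) k
  have h1 := fun k => cont_coord (cont_fd h 1) k
  have h2 := fun k => cont_coord (cont_D2 h i j) k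
  unfold sff det3
  exact (((h0 0).mul (((h1 1).mul (h2 2)).sub ((h1 2).mul (h2 1)))).sub
    ((h0 1).mul (((h1 0).mul (h2 2)).sub ((h1 2).mul (h2 0))))).add
    ((h0 2).mul (((h1 0).mul (h2 1)).sub ((h1 1).mul (h2 0))))

theorem cont_curv {X : E2 → E3} {b : E2} (h : ContDiffAt ℝ ∞ X b) :
    ContinuousAt (fun a => curv X a) b := by
  unfold curv
  exact ((cont_sff h 0 0).mul (cont_sff h 1 1)).sub ((cont_sff h 0 1).pow 2)

/-! ## congruence and periodicity -/

theorem fderiv_shift {E F : Type*} [NormedAddCommGroup E] [NormedSpace ℝ E] [NormedAddCommGroup F]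
    [NormedSpace ℝ F] {X : E → F} {v : E} (h : ∀ b, X (b + v) = X b) (b : E) :
    fderiv ℝ X (b + v) = fderiv ℝ X b := by
  rw [← fderiv_comp_add_right]
  congr 1
  funext x
  exact h x

theorem strong_shift {X : E2 → E3} {v : E2} (h : ∀ b, X (b + v) = X b) (b : E2) (c : ℝ)
    (ϖ : E3 → ℝ) (hs : Strong c ϖ X (b + v)) : Strong c ϖ X b := by
  unfold Strong D2 at hs ⊢
  rw [fderiv_shift h, fderiv_shift (fderiv_shift h), h] at hs
  exact hs

theorem curv_congr {X Y : E2 → E3} {b : E2} (h : X =ᶠ[𝓝 b] Y) : curv X b = curv Y b := by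
  unfold curv sff D2
  rw [h.fderiv_eq, h.fderiv.fderiv_eq]

/-- the shift by `2πk` in the first variable -/
noncomputable def shv (k : ℤ) : E2 := !₂[k * (2 * Real.pi), 0]

theorem shv0 (b : E2) (k : ℤ) : (b + shv k) 0 = b 0 + k * (2 * Real.pi) := by simp [shv]
theorem shv1 (b : E2) (k : ℤ) : (b + shv k) 1 = b 1 := by simp [shv]

theorem sin3_shv (b : E2) (k : ℤ) : Real.sin (3 * (b + shv k) 0) = Real.sin (3 * b 0) := by
  rw [shv0, show 3 * (b 0 + k * (2 * Real.pi)) = 3 * b 0 + ((3 * k : ℤ) : ℝ) * (2 * Real.pi) by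
    push_cast; ring, Real.sin_add_int_mul_two_pi]

theorem cos3_shv (b : E2) (k : ℤ) : Real.cos (3 * (b + shv k) 0) = Real.cos (3 * b 0) := by
  rw [shv0, show 3 * (b 0 + k * (2 * Real.pi)) = 3 * b 0 + ((3 * k : ℤ) : ℝ) * (2 * Real.pi) by
    push_cast; ring, Real.cos_add_int_mul_two_pi]

theorem xiX_shv (b : E2) (k : ℤ) : xiX (b + shv k) = xiX b := by
  unfold xiX
  rw [shv0, shv1, Real.cos_add_int_mul_two_pi,
    show 2 * (b 0 + k * (2 * Real.pi)) = 2 * b 0 + ((2 * k : ℤ) : ℝ) * (2 * Real.pi) by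
    push_cast; ring, Real.cos_add_int_mul_two_pi]

theorem xiY_shv (b : E2) (k : ℤ) : xiY (b + shv k) = xiY b := by
  unfold xiY
  rw [shv0, shv1, Real.sin_add_int_mul_two_pi,
    show 2 * (b 0 + k * (2 * Real.pi)) = 2 * b 0 + ((2 * k : ℤ) : ℝ) * (2 * Real.pi) by
    push_cast; ring, Real.sin_add_int_mul_two_pi]

theorem floorX_shv (ρ l : ℝ) (k : ℤ) (b : E2) : floorX ρ l (b + shv k) = floorX ρ l b := by
  unfold floorX floorH
  rw [xiX_shv, xiY_shv, sin3_shv, shv1]

theorem flat_shv (b : E2) (k : ℤ) : FlatB (b + shv k) ↔ FlatB b := by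
  unfold FlatB
  rw [sin3_shv, cos3_shv, shv1]

/-! ## the compact fundamental domain -/

theorem nn_floor' (ρ l : ℝ) (b : E2) :
    nn (floorX ρ l b) = (l * xiX b) ^ 2 + (l * xiY b) ^ 2 := by
  simp [nn, floorX]

theorem cont_nn (ρ l : ℝ) : Continuous (fun b => nn (floorX ρ l b)) := by
  have : (fun b => nn (floorX ρ l b)) = fun b => (l * xiX b) ^ 2 + (l * xiY b) ^ 2 := by
    funext b; exact nn_floor' ρ l b
  rw [this]
  unfold xiX xiY
  fun_prop

def KK (ρ l R : ℝ) : Set E2 :=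
  {b | (0 ≤ b 0 ∧ b 0 ≤ 2 * Real.pi) ∧ (-R ≤ b 1 ∧ b 1 ≤ R) ∧ nn (floorX ρ l b) ≤ 4 * ρ ^ 2}

theorem isCompact_KK (ρ l R : ℝ) : IsCompact (KK ρ l R) := by
  apply Metric.isCompact_of_isClosed_isBounded
  · have c0 : Continuous (fun b : E2 => b 0) := by fun_prop
    have c1 : Continuous (fun b : E2 => b 1) := by fun_prop
    exact ((isClosed_le continuous_const c0).inter (isClosed_le c0 continuous_const)).inter
      (((isClosed_le continuous_const c1).inter (isClosed_le c1 continuous_const)).inter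
        (isClosed_le (cont_nn ρ l) continuous_const))
  · rw [isBounded_iff_forall_norm_le]
    refine ⟨2 * Real.pi + |R|, ?_⟩
    rintro b ⟨⟨h1, h2⟩, ⟨h3, h4⟩, -⟩
    rw [EuclideanSpace.norm_eq]
    apply Real.sqrt_le_iff.mpr
    have hR : |b 1| ≤ |R| := by
      rw [abs_le]
      have := le_abs_self R
      constructor <;> linarith
    have hp : 0 ≤ 2 * Real.pi := by positivity
    constructor
    · positivity
    · simp only [Fin.sum_univ_two, Real.norm_eq_abs, sq_abs]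
      have h5 : b 1 ^ 2 ≤ |R| ^ 2 := by
        rw [← sq_abs (b 1)]
        exact pow_le_pow_left₀ (abs_nonneg _) hR 2
      have h6 : b 0 ^ 2 ≤ (2 * Real.pi) ^ 2 := pow_le_pow_left₀ h1 h2 2
      have h7 : 0 ≤ 2 * Real.pi * |R| := by positivity
      nlinarith

theorem exists_bd {K : Set E2} (hK : IsCompact K) (g : E2 → ℝ) (hg : ∀ b ∈ K, ContinuousAt g b) :
    ∃ C, 0 < C ∧ ∀ b ∈ K, |g b| ≤ C := by
  obtain ⟨C, hC⟩ := hK.exists_bound_of_continuousOn (f := g)
    (fun b hb => (hg b hb).continuousWithinAt)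
  refine ⟨max C 1, lt_max_of_lt_right one_pos, fun b hb => ?_⟩
  exact (hC b hb).trans (le_max_left _ _)

/-- `|t|` is bounded on the floor. -/
theorem t_bound {ρ l : ℝ} (hP : Par ρ l) (b : E2) (h : nn (floorX ρ l b) ≤ 4 * ρ ^ 2) :
    |b 1| ≤ 2 * ρ / l + 1 := by
  have hl := hP.hl
  have hρ := hP.hρ
  rw [nn_floor'] at h
  have e1 : (l * xiX b) ^ 2 + (l * xiY b) ^ 2 =
      l ^ 2 * (b 1 ^ 2 + 2 * b 1 * Real.cos (3 * b 0) + 1) := by
    have h3 : Real.cos (3 * b 0) = Real.cos (2 * b 0) * Real.cos (b 0)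
        - Real.sin (2 * b 0) * Real.sin (b 0) := by
      rw [← Real.cos_add]; congr 1; ring
    have h1 := Real.sin_sq_add_cos_sq (b 0)
    have h2 := Real.sin_sq_add_cos_sq (2 * b 0)
    rw [h3]
    unfold xiX xiY
    linear_combination l ^ 2 * b 1 ^ 2 * h1 + l ^ 2 * h2
  rw [e1] at h
  have hc1 := Real.neg_one_le_cos (3 * b 0)
  have hc2 := Real.cos_le_one (3 * b 0)
  have h4 : (|b 1| - 1) ^ 2 ≤ b 1 ^ 2 + 2 * b 1 * Real.cos (3 * b 0) + 1 := by
    have : -(|b 1|) ≤ b 1 * Real.cos (3 * b 0) := by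
      have h5 : |b 1 * Real.cos (3 * b 0)| ≤ |b 1| := by
        rw [abs_mul]
        exact mul_le_of_le_one_right (abs_nonneg _) (abs_le.mpr ⟨hc1, hc2⟩)
      exact (abs_le.mp (h5.trans le_rfl)).1
    have h6 := sq_abs (b 1)
    nlinarith
  have h5 : l ^ 2 * (|b 1| - 1) ^ 2 ≤ 4 * ρ ^ 2 :=
    (mul_le_mul_of_nonneg_left h4 (by positivity)).trans h
  have h6 : (l * (|b 1| - 1)) ^ 2 ≤ (2 * ρ) ^ 2 := by nlinarith
  have h7 : l * (|b 1| - 1) ≤ 2 * ρ := (abs_le_of_sq_le_sq' h6 (by positivity)).2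
  have h8 : |b 1| - 1 ≤ 2 * ρ / l := by
    rw [le_div_iff₀ hl]; linarith
  linarith

/-! ## continuity of the weight -/

theorem cont_tt : Continuous tt := by unfold tt nn cc; fun_prop
theorem cont_flr : Continuous flr := by unfold flr nn; fun_prop
theorem cont_flc (l : ℝ) : Continuous (flc l) := by unfold flc nn WW cc; fun_prop

theorem flc_nonneg (l : ℝ) (x : E3) : 0 ≤ flc l x := by unfold flc; positivity
theorem flr_nonneg (x : E3) : 0 ≤ flr x := by unfold flr nn; positivity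

theorem flc_core (l : ℝ) (b : E2) (hn : nn (coreX l b) =
      l ^ 2 * (b 1 ^ 2 + 2 * b 1 * Real.cos (3 * b 0) + 1)) : flc l (coreX l b) =
    l ^ 4 * (b 1 ^ 2 + 2 * b 1 * Real.cos (3 * b 0) + 1 - 25) ^ 2
      + 100 * l ^ 6 * (b 1 ^ 2 * Real.sin (3 * b 0) ^ 2) := by
  have hW : WW (coreX l b) = - (10 * l ^ 3 * (b 1 * Real.sin (3 * b 0))) := by
    simp [WW, coreX, cc, pl]
    ring
  unfold flc
  rw [hn, hW]
  ring

theorem weight_le {v g f c C1 M1 S B8 L k Z : ℝ} (hv : v = g * f) (hg : 0 ≤ g) (hf : 0 ≤ f)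
    (hgC : g ≤ C1) (hfM : f ≤ M1 * S) (hc : 0 ≤ c) (hc1 : c * (C1 * M1 * B8) ≤ L * k)
    (hS : 0 ≤ S) (hB : 0 ≤ B8) (hC1 : 0 ≤ C1) (hM1 : 0 ≤ M1) (hL : 0 ≤ L) (hq : k * S ≤ Z) :
    c * v * B8 ≤ L * Z := by
  have h1 : c * v * B8 ≤ c * (C1 * (M1 * S)) * B8 := by
    rw [hv]
    exact mul_le_mul_of_nonneg_right (mul_le_mul_of_nonneg_left
      (mul_le_mul hgC hfM hf hC1) hc) hB
  have h2 : c * (C1 * (M1 * S)) * B8 = (c * (C1 * M1 * B8)) * S := by ring
  have h3 : (c * (C1 * M1 * B8)) * S ≤ (L * k) * S := mul_le_mul_of_nonneg_right hc1 hS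
  have h4 : L * (k * S) ≤ L * Z := mul_le_mul_of_nonneg_left hq hL
  calc _ ≤ _ := h1
    _ = _ := h2
    _ ≤ _ := h3
    _ = L * (k * S) := by ring
    _ ≤ _ := h4

/-- FLOORSTRONG -/
theorem floorStrong (hSC : StrongOfCurvStatement) (hCC : CoreCurvStatement)
    (hCI : CoreIneqStatement) (hFR : FloorRegStatement) : FloorStrongStatement := by
  intro ρ l hP
  obtain ⟨r1, r2, r3, -, -, r6⟩ := hFR ρ l hP
  have hl := hP.hl
  have hρ := hP.hρ
  set R : ℝ := 2 * ρ / l + 1 with hR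
  set K : Set E2 := KK ρ l R with hK
  have hKc : IsCompact K := isCompact_KK ρ l R
  have hK9 : ∀ b ∈ K, nn (floorX ρ l b) ≤ 9 * ρ ^ 2 := by
    rintro b ⟨-, -, h⟩
    nlinarith [sq_nonneg ρ]
  have hcd : ∀ b ∈ K, ContDiffAt ℝ ∞ (floorX ρ l) b := fun b hb => (r1 b (hK9 b hb)).1
  -- bounds
  obtain ⟨B0, hB0, hB0'⟩ := exists_bd hKc (fun a => ‖fderiv ℝ (floorX ρ l) a (e2 0)‖)
    (fun b hb => (cont_fd (hcd b hb) 0).norm)
  obtain ⟨B1, hB1, hB1'⟩ := exists_bd hKc (fun a => ‖fderiv ℝ (floorX ρ l) a (e2 1)‖)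
    (fun b hb => (cont_fd (hcd b hb) 1).norm)
  obtain ⟨B2, hB2, hB2'⟩ := exists_bd hKc (fun a => sff (floorX ρ l) a 0 0)
    (fun b hb => cont_sff (hcd b hb) 0 0)
  obtain ⟨B3, hB3, hB3'⟩ := exists_bd hKc (fun a => sff (floorX ρ l) a 0 1)
    (fun b hb => cont_sff (hcd b hb) 0 1)
  obtain ⟨B4, hB4, hB4'⟩ := exists_bd hKc (fun a => sff (floorX ρ l) a 1 0)
    (fun b hb => cont_sff (hcd b hb) 1 0)
  obtain ⟨B5, hB5, hB5'⟩ := exists_bd hKc (fun a => sff (floorX ρ l) a 1 1)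
    (fun b hb => cont_sff (hcd b hb) 1 1)
  set B : ℝ := 1 + B0 + B1 + B2 + B3 + B4 + B5 with hB
  have hBpos : 1 ≤ B := by linarith
  -- bound for the weights
  obtain ⟨C1, hC1, hC1'⟩ := exists_bd hKc (fun a => tt (floorX ρ l a) ^ 2 * flr (floorX ρ l a))
    (fun b hb => ((cont_tt.continuousAt.comp (hcd b hb).continuousAt).pow 2).mul
      (cont_flr.continuousAt.comp (hcd b hb).continuousAt))
  obtain ⟨C2, hC2, hC2'⟩ := exists_bd hKc (fun a => flc l (floorX ρ l a))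
    (fun b hb => (cont_flc l).continuousAt.comp (hcd b hb).continuousAt)
  have hnn : ∀ b, 0 ≤ tt (floorX ρ l b) ^ 2 * flr (floorX ρ l b) := fun b =>
    mul_nonneg (sq_nonneg _) (flr_nonneg _)
  have hvar : ∀ b, varpi l (floorX ρ l b) =
      (tt (floorX ρ l b) ^ 2 * flr (floorX ρ l b)) * flc l (floorX ρ l b) := by
    intro b; unfold varpi; ring
  -- curvature in the transition zone
  have htrans : ∃ κ₀ > 0, ∀ b ∈ K, ρ ^ 2 ≤ nn (floorX ρ l b) → curv (floorX ρ l) b ≤ -κ₀ := by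
    have hK2c : IsCompact (K ∩ {b | ρ ^ 2 ≤ nn (floorX ρ l b)}) :=
      hKc.inter_right (isClosed_le continuous_const (cont_nn ρ l))
    rcases (K ∩ {b | ρ ^ 2 ≤ nn (floorX ρ l b)}).eq_empty_or_nonempty with he | hne
    · refine ⟨1, one_pos, fun b hb hb' => ?_⟩
      exact absurd (show b ∈ K ∩ {b | ρ ^ 2 ≤ nn (floorX ρ l b)} from ⟨hb, hb'⟩) (by rw [he]; simp)
    · obtain ⟨b0, hb0, hmax⟩ := hK2c.exists_isMaxOn hne
        (f := fun a => curv (floorX ρ l) a)
        (fun b hb => (cont_curv (hcd b hb.1)).continuousWithinAt)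
      refine ⟨-curv (floorX ρ l) b0, ?_, fun b hb hb' => ?_⟩
      · have := hP.hK b0 hb0.2 hb0.1.2.2
        linarith
      · have := hmax ⟨hb, hb'⟩
        simpa using this
  obtain ⟨κ₀, hκ₀, htr⟩ := htrans
  obtain ⟨k, hk, hkk⟩ := hCI.2 R
  -- the constant
  set M1 : ℝ := l ^ 4 + 100 * l ^ 6 with hM1
  have hM1pos : 0 < M1 := by positivity
  set c : ℝ := min (100 * l ^ 10 * k / (C1 * M1 * (8 * B ^ 5)))
    (κ₀ / (C1 * C2 * (8 * B ^ 5))) with hc
  have hB5 : 0 < 8 * B ^ 5 := by positivity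
  have hcpos : 0 < c := by
    apply lt_min <;> positivity
  refine ⟨c, hcpos, ?_⟩
  -- the claim on the fundamental domain
  have main : ∀ b ∈ K, ¬ FlatB b → Strong c (varpi l) (floorX ρ l) b := by
    intro b hb hflat
    have hfl0 := flc_nonneg l (floorX ρ l b)
    have hw0 : 0 ≤ c * varpi l (floorX ρ l b) := by
      rw [hvar]
      exact mul_nonneg hcpos.le (mul_nonneg (hnn b) hfl0)
    have hg1 : tt (floorX ρ l b) ^ 2 * flr (floorX ρ l b) ≤ C1 :=
      (le_abs_self _).trans (hC1' b hb)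
    have hD : ∀ i, ‖fderiv ℝ (floorX ρ l) b (e2 i)‖ ≤ B := by
      intro i
      have h0 := hB0' b hb
      have h1 := hB1' b hb
      rw [abs_of_nonneg (norm_nonneg _)] at h0 h1
      fin_cases i
      · show ‖fderiv ℝ (floorX ρ l) b (e2 0)‖ ≤ B
        linarith
      · show ‖fderiv ℝ (floorX ρ l) b (e2 1)‖ ≤ B
        linarith
    have hS : ∀ i j, |sff (floorX ρ l) b i j| ≤ B := by
      intro i j
      have h2 := hB2' b hb
      have h3 := hB3' b hb
      have h4 := hB4' b hb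
      have h5 := hB5' b hb
      fin_cases i <;> fin_cases j
      · show |sff (floorX ρ l) b 0 0| ≤ B
        linarith
      · show |sff (floorX ρ l) b 0 1| ≤ B
        linarith
      · show |sff (floorX ρ l) b 1 0| ≤ B
        linarith
      · show |sff (floorX ρ l) b 1 1| ≤ B
        linarith
    by_cases hin : nn (floorX ρ l b) < ρ ^ 2
    · have hX : floorX ρ l b = coreX l b := r2 b hin.le
      have hcv : curv (floorX ρ l) b = -(100 * l ^ 10 *
          (Real.sin (3 * b 0) ^ 2 * AA (b 1) (Real.cos (3 * b 0))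
            + BB (b 1) (Real.cos (3 * b 0)) ^ 2)) := by
        rw [curv_congr (r3 b hin), hCC]
      have hcs : Real.cos (3 * b 0) ^ 2 + Real.sin (3 * b 0) ^ 2 = 1 := Real.cos_sq_add_sin_sq _
      have hpos := hCI.1 (b 1) (Real.cos (3 * b 0)) (Real.sin (3 * b 0)) hcs hflat
      have hq := hkk (b 1) (Real.cos (3 * b 0)) (Real.sin (3 * b 0)) hcs
        (abs_le.mpr ⟨hb.2.1.1, hb.2.1.2⟩)
      -- the weight
      have hnc : nn (coreX l b) = l ^ 2 * (b 1 ^ 2 + 2 * b 1 * Real.cos (3 * b 0) + 1) := by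
        rw [← hX]; exact r6 b
      have hflc := flc_core l b hnc
      rw [← hX] at hflc
      generalize (b 1 ^ 2 + 2 * b 1 * Real.cos (3 * b 0) + 1 - 25) = P at hflc hq
      generalize hQdef : b 1 ^ 2 * Real.sin (3 * b 0) ^ 2 = Q at hflc hq
      have hQ0 : 0 ≤ Q := by rw [← hQdef]; positivity
      generalize Real.sin (3 * b 0) ^ 2 * AA (b 1) (Real.cos (3 * b 0))
            + BB (b 1) (Real.cos (3 * b 0)) ^ 2 = Z at hcv hpos hq
      have hP0 : 0 ≤ P ^ 2 := sq_nonneg _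
      have hle : flc l (floorX ρ l b) ≤ M1 * (P ^ 2 + Q) := by
        rw [hflc, hM1]
        have h1 : 0 ≤ l ^ 4 * Q := by positivity
        have h2 : 0 ≤ 100 * l ^ 6 * P ^ 2 := by positivity
        linarith
      have hc1 : c ≤ 100 * l ^ 10 * k / (C1 * M1 * (8 * B ^ 5)) := min_le_left _ _
      rw [le_div_iff₀ (by positivity)] at hc1
      have hZ : 0 < 100 * l ^ 10 * Z := mul_pos (by positivity) hpos
      refine hSC (floorX ρ l) b (100 * l ^ 10 * Z) B c (varpi l) (hcd b hb) (by linarith) hcv.le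
        hBpos hD hS hw0 ?_
      exact weight_le (hvar b) (hnn b) hfl0 hg1 hle hcpos.le hc1 (by positivity) hB5.le hC1.le
        hM1pos.le (by positivity) hq
    · have hin : ρ ^ 2 ≤ nn (floorX ρ l b) := not_lt.mp hin
      have hcv := htr b hb hin
      refine hSC (floorX ρ l) b κ₀ B c (varpi l) (hcd b hb) (by linarith) hcv hBpos hD hS hw0 ?_
      have hc2 : c ≤ κ₀ / (C1 * C2 * (8 * B ^ 5)) := min_le_right _ _
      rw [le_div_iff₀ (by positivity)] at hc2
      have hg2 : flc l (floorX ρ l b) ≤ C2 := (le_abs_self _).trans (hC2' b hb)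
      have := weight_le (hvar b) (hnn b) hfl0 hg1 (show flc l (floorX ρ l b) ≤ C2 * 1 by linarith)
        hcpos.le (show c * (C1 * C2 * (8 * B ^ 5)) ≤ 1 * κ₀ by linarith) zero_le_one hB5.le hC1.le
        hC2.le zero_le_one (show κ₀ * 1 ≤ κ₀ by linarith)
      linarith
  -- general points
  intro b hb hflat
  have hp : 0 < 2 * Real.pi := by positivity
  obtain ⟨k', hk'⟩ : ∃ k' : ℤ, 0 ≤ b 0 + k' * (2 * Real.pi) ∧ b 0 + k' * (2 * Real.pi) ≤ 2 * Real.pi := by
    refine ⟨-⌊b 0 / (2 * Real.pi)⌋, ?_, ?_⟩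
    · have := Int.floor_le (b 0 / (2 * Real.pi))
      rw [le_div_iff₀ hp] at this
      push_cast
      linarith
    · have := (Int.lt_floor_add_one (b 0 / (2 * Real.pi))).le
      rw [div_le_iff₀ hp] at this
      push_cast
      linarith
  apply strong_shift (v := shv k') (floorX_shv ρ l k')
  apply main
  · refine ⟨?_, ?_, ?_⟩
    · rw [shv0]; exact hk'
    · rw [shv1]
      exact abs_le.mp (t_bound hP b hb)
    · rw [floorX_shv]; exact hb
  · rw [flat_shv]; exact hflat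

end Pool.Agent.Tight.H75
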